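import Pool.Agent.H852R2.EX.Par
import Pool.Agent.H852R2.EX.S.RT
import Pool.Agent.H852R2.EX.S.ITER2
import Pool.Agent.H14R2.RC.S.TYPES
import Pool.Agent.H14R2.RC.S.CONJ
import Pool.Agent.H14R2.RC.Util
import Pool.Agent.H14R2.RC.Asy
import Pool.Agent.H20R2.RC.FR

namespace RC852
open RC14 Finset Filter
open scoped InnerProductSpace

namespace ZHIGH

section
variable {G : Type*} [Group G] [Fintype G]
variable {V : Type*} [NormedAddCommGroup V] [InnerProductSpace ℂ V] [FiniteDimensional ℂ V]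

/-- the three energies with weights -/
noncomputable def E3 {q R : ℕ} (ρ : G →* (V ≃ₗᵢ[ℂ] V)) (x b : Fin q → G)
    (z : Fin R → Fin q → G) (α β γ : ℝ) (v : V) : ℝ :=
  α * En ρ x v + β * En ρ b v + γ * ∑ r, En ρ (z r) v

lemma key {q R : ℕ} (ρ : G →* (V ≃ₗᵢ[ℂ] V)) (x b : Fin q → G)
    (z : Fin R → Fin q → G) (α β γ : ℝ) (v : V) :
    ∑ t : Fin (q + q + R * q),
      (Fin.append (Fin.append (fun _ : Fin q => α) (fun _ : Fin q => β))
        (fun _ : Fin (R * q) => γ) t) *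
      ‖ρ (Fin.append (Fin.append x b) (fun t : Fin (R * q) =>
        z (finProdFinEquiv.symm t).1 (finProdFinEquiv.symm t).2) t) v - v‖ ^ 2 =
      E3 ρ x b z α β γ v := by
  rw [Fin.sum_univ_add, Fin.sum_univ_add]
  simp only [Fin.append_left, Fin.append_right]
  rw [← Finset.mul_sum, ← Finset.mul_sum, ← Finset.mul_sum, E3]
  congr 2
  simp only [En]
  rw [← Fintype.sum_prod_type' (f := fun r j => ‖ρ (z r j) v - v‖ ^ 2)]
  exact Fintype.sum_equiv finProdFinEquiv.symm _ _ fun t => rfl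

lemma ub (ρ : G →* (V ≃ₗᵢ[ℂ] V)) (M : Submodule ℂ V) (hM : Inv ρ M) (q R : ℕ)
    (x b : Fin q → G) (α β γ : ℝ) (hα : 0 ≤ α) (hβ : 0 ≤ β) (hγ : 0 ≤ γ) (B : ℝ) (hB : 0 ≤ B)
    (h : ∀ W : Submodule ℂ V, Irr ρ W → W ≤ M →
      (Nat.card {z : Fin R → Fin q → G // ¬ ∀ v ∈ W, ‖v‖ ^ 2 ≤ E3 ρ x b z α β γ v} : ℝ) ≤ B) :
    (Nat.card {z : Fin R → Fin q → G // ¬ ∀ v ∈ M, ‖v‖ ^ 2 ≤ E3 ρ x b z α β γ v} : ℝ) ≤
      (Nat.card (ConjClasses G) : ℝ) * B := by
  obtain ⟨N, W, hN, hW, hdec⟩ := TYPES ρ M hM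
  have step : Nat.card {z : Fin R → Fin q → G // ¬ ∀ v ∈ M, ‖v‖ ^ 2 ≤ E3 ρ x b z α β γ v} ≤
      ∑ i, Nat.card {z : Fin R → Fin q → G // ¬ ∀ v ∈ W i, ‖v‖ ^ 2 ≤ E3 ρ x b z α β γ v} := by
    apply RC14.card_union
    intro z hz
    by_contra hcon
    push Not at hcon
    apply hz
    intro v hv
    have := hdec (q + q + R * q) (Fin.append (Fin.append x b) (fun t : Fin (R * q) =>
          z (finProdFinEquiv.symm t).1 (finProdFinEquiv.symm t).2))
      (Fin.append (Fin.append (fun _ : Fin q => α) (fun _ : Fin q => β))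
        (fun _ : Fin (R * q) => γ)) 1 ?_ ?_ v hv
    · rwa [key, one_mul] at this
    · intro i
      induction i using Fin.addCases with
      | left i =>
        induction i using Fin.addCases with
        | left i => rw [Fin.append_left, Fin.append_left]; exact hα
        | right i => rw [Fin.append_left, Fin.append_right]; exact hβ
      | right i => rw [Fin.append_right]; exact hγ
    · intro i v hv
      rw [key, one_mul]
      exact hcon i v hv
  calc (Nat.card {z : Fin R → Fin q → G // ¬ ∀ v ∈ M, ‖v‖ ^ 2 ≤ E3 ρ x b z α β γ v} : ℝ)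
      ≤ ∑ i, (Nat.card {z : Fin R → Fin q → G //
          ¬ ∀ v ∈ W i, ‖v‖ ^ 2 ≤ E3 ρ x b z α β γ v} : ℝ) := by exact_mod_cast step
    _ ≤ ∑ i : Fin N, B := Finset.sum_le_sum fun i _ => h (W i) (hW i).1 (hW i).2
    _ = N * B := by simp
    _ ≤ (Nat.card (ConjClasses G) : ℝ) * B := by
        have : (N : ℝ) ≤ Nat.card (ConjClasses G) := by exact_mod_cast hN
        gcongr
end

lemma pow87 (M : ℕ) : (8 / 7 : ℝ) ^ (2 * (32 * (M / 8))) * Real.exp (-(3 * M)) ≤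
    Real.exp (-(M : ℝ)) := by
  have h1 : (8 / 7 : ℝ) ^ 4 ≤ Real.exp 1 := by
    have := Real.exp_one_gt_d9
    norm_num at this ⊢
    linarith
  have h2 : (8 / 7 : ℝ) ^ (2 * (32 * (M / 8))) ≤ Real.exp (2 * M) := by
    calc (8 / 7 : ℝ) ^ (2 * (32 * (M / 8))) = ((8 / 7 : ℝ) ^ 4) ^ (16 * (M / 8)) := by
          rw [← pow_mul]; congr 1; ring
      _ ≤ (Real.exp 1) ^ (16 * (M / 8)) := by gcongr
      _ = Real.exp ((16 * (M / 8) : ℕ) : ℝ) := by rw [← Real.exp_nat_mul, mul_one]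
      _ ≤ Real.exp (2 * M) := by
          apply Real.exp_le_exp.mpr
          have : 16 * (M / 8) ≤ 2 * M := by omega
          exact_mod_cast this
  calc (8 / 7 : ℝ) ^ (2 * (32 * (M / 8))) * Real.exp (-(3 * M))
      ≤ Real.exp (2 * M) * Real.exp (-(3 * M)) := by gcongr
    _ = Real.exp (-(M : ℝ)) := by rw [← Real.exp_add]; congr 1; ring

lemma finrank_le (n : ℕ) (W : Submodule ℂ (FA n)) : Module.finrank ℂ W ≤ n ^ n := by
  have h1 : Module.finrank ℂ W ≤ Fintype.card (Alt n) := by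
    refine (Submodule.finrank_le _).trans ?_
    simp
  have h2 : Fintype.card (Alt n) ≤ n.factorial := by
    have : Fintype.card (Alt n) ≤ Fintype.card (Equiv.Perm (Fin n)) :=
      Fintype.card_subtype_le _
    rwa [Fintype.card_perm, Fintype.card_fin] at this
  exact (h1.trans h2).trans (Nat.factorial_le_pow n)

lemma num (n R : ℕ) (q M : ℝ) (hn : 9 ≤ n) (hR : (R : ℝ) ≤ n)
    (hM : Real.exp (-81) * Real.sqrt n / 2 ≤ M)
    (hq : 192 * Real.exp 81 * ((R : ℝ) + 1) ^ 2 * Real.log n ≤ q) :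
    (2 * (n + 1) ^ (2 * Nat.sqrt n + 2) : ℕ) *
      (R * Real.exp (-(M * q / (12 * ((R : ℝ) + 1) ^ 2)))) ≤ 1 / n := by
  have hn' : (9 : ℝ) ≤ n := by exact_mod_cast hn
  have hn0 : (0 : ℝ) < n := by linarith
  have hl : 0 ≤ Real.log n := Real.log_natCast_nonneg n
  have hs : 3 ≤ Real.sqrt n := by
    apply Real.le_sqrt_of_sq_le
    norm_num
    exact hn
  have hsn : ((Nat.sqrt n : ℕ) : ℝ) ≤ Real.sqrt n := by
    apply Real.le_sqrt_of_sq_le
    exact_mod_cast Nat.sqrt_le' n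
  have hR1 : (0 : ℝ) < ((R : ℝ) + 1) ^ 2 := by positivity
  -- exponent
  have h1 : 8 * Real.sqrt n * Real.log n ≤ M * q / (12 * ((R : ℝ) + 1) ^ 2) := by
    rw [le_div_iff₀ (by positivity)]
    have hM0 : 0 ≤ Real.exp (-81) * Real.sqrt n / 2 := by positivity
    calc 8 * Real.sqrt n * Real.log n * (12 * ((R : ℝ) + 1) ^ 2)
        = (Real.exp (-81) * Real.exp 81) * (96 * Real.sqrt n * (((R : ℝ) + 1) ^ 2 * Real.log n)) := by
          rw [← Real.exp_add]; norm_num; ring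
      _ = (Real.exp (-81) * Real.sqrt n / 2) *
            (192 * Real.exp 81 * ((R : ℝ) + 1) ^ 2 * Real.log n) := by ring
      _ ≤ M * q := mul_le_mul hM hq (by positivity) (hM0.trans hM)
  have h2 : ((n : ℝ) + 1) ≤ Real.exp (2 * Real.log n) := by
    have : Real.exp (2 * Real.log n) = (n : ℝ) ^ 2 := by
      rw [show 2 * Real.log n = Real.log n + Real.log n by ring, Real.exp_add,
        Real.exp_log hn0]; ring
    rw [this]; nlinarith
  have h3 : ((2 * (n + 1) ^ (2 * Nat.sqrt n + 2) : ℕ) : ℝ) ≤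
      Real.exp (Real.log n * (1 + 2 * (2 * Real.sqrt n + 2))) := by
    push_cast
    calc (2 : ℝ) * ((n : ℝ) + 1) ^ (2 * Nat.sqrt n + 2)
        ≤ n * (Real.exp (2 * Real.log n)) ^ (2 * Nat.sqrt n + 2) := by
          gcongr; linarith
      _ = Real.exp (Real.log n) * Real.exp ((2 * Nat.sqrt n + 2 : ℕ) * (2 * Real.log n)) := by
          rw [Real.exp_log hn0, ← Real.exp_nat_mul]
      _ = Real.exp (Real.log n + (2 * Nat.sqrt n + 2 : ℕ) * (2 * Real.log n)) := by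
          rw [Real.exp_add]
      _ ≤ Real.exp (Real.log n * (1 + 2 * (2 * Real.sqrt n + 2))) := by
          apply Real.exp_le_exp.mpr
          push_cast
          nlinarith [mul_le_mul_of_nonneg_left hsn hl]
  have h4 : (R : ℝ) ≤ Real.exp (Real.log n) := by rw [Real.exp_log hn0]; exact hR
  calc (2 * (n + 1) ^ (2 * Nat.sqrt n + 2) : ℕ) *
      (R * Real.exp (-(M * q / (12 * ((R : ℝ) + 1) ^ 2))))
      ≤ Real.exp (Real.log n * (1 + 2 * (2 * Real.sqrt n + 2))) *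
        (Real.exp (Real.log n) * Real.exp (-(8 * Real.sqrt n * Real.log n))) := by
        gcongr
    _ = Real.exp (Real.log n * (6 - 4 * Real.sqrt n)) := by
        rw [← Real.exp_add, ← Real.exp_add]; congr 1; ring
    _ ≤ Real.exp (-Real.log n) := by
        apply Real.exp_le_exp.mpr
        nlinarith
    _ = 1 / n := by rw [Real.exp_neg, Real.exp_log hn0, one_div]

end ZHIGH

open ZHIGH in
/-- `R` rounds for the functions of level above `m0 n` -/
theorem ZHIGH : ∃ C : ℝ, 0 < C ∧ ∀ᶠ n : ℕ in atTop, ∀ (q m R : ℕ) (x b : Fin q → Alt n),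
    1 ≤ R → C * ((R : ℝ) + 1) ^ 2 * Real.log n ≤ q → ((R : ℝ) + 1) ^ 2 ≤ (n : ℝ) ^ (1 / 4 : ℝ) →
    (n : ℝ) ≤ (q / (12 * ((R : ℝ) + 1) ^ 2)) ^ R → GoodB (gx x m) (cb b) →
    (Nat.card {z : Fin R → Fin q → Alt n // ¬ ∀ v ∈ HH (m0 n) n,
        ‖v‖ ^ 2 ≤ 384 * (m : ℝ) ^ 2 / q * En (RR n) x v +
          64 / (q : ℝ) * En (RR n) b v + 48 * R / (q : ℝ) * ∑ r, En (RR n) (z r) v} : ℝ) ≤
      1 / (n : ℝ) * (Fintype.card (Alt n) : ℝ) ^ (R * q) := by
  refine ⟨192 * Real.exp 81, by positivity, ?_⟩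
  filter_upwards [RTHIGH, ev_le (1 / 4) (1 / 2) (13 * Real.exp 81) (by norm_num),
    ev_log 0 (1 / 2) (4 * Real.exp 81) (by norm_num), ev_loggt 1,
    eventually_ge_atTop 9] with n hRT h1 h2 h3 hn9 q m R x b hR hqC hR4 hnR hgood
  have hn' : (9 : ℝ) ≤ n := by exact_mod_cast hn9
  have hn0 : (0 : ℝ) < n := by linarith
  have hn1 : (1 : ℝ) ≤ n := by linarith
  have h14 : (1 : ℝ) ≤ (n : ℝ) ^ (1 / 4 : ℝ) := Real.one_le_rpow hn1 (by norm_num)
  have hsq : (n : ℝ) ^ (1 / 2 : ℝ) = Real.sqrt n := by rw [Real.sqrt_eq_rpow]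
  rw [hsq] at h1 h2
  have hee : Real.exp (-81) * Real.exp 81 = 1 := by rw [← Real.exp_add]; norm_num
  have hm0 : Real.exp (-81) * Real.sqrt n - 1 < m0 n := by
    have := Nat.lt_floor_add_one (Real.exp (-81) * Real.sqrt n)
    unfold m0
    linarith
  have h1' : 13 * (n : ℝ) ^ (1 / 4 : ℝ) ≤ Real.exp (-81) * Real.sqrt n := by
    calc 13 * (n : ℝ) ^ (1 / 4 : ℝ) = Real.exp (-81) * (13 * Real.exp 81 * (n : ℝ) ^ (1 / 4 : ℝ)) := by
          rw [show Real.exp (-81) * (13 * Real.exp 81 * (n : ℝ) ^ (1 / 4 : ℝ)) =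
            (Real.exp (-81) * Real.exp 81) * (13 * (n : ℝ) ^ (1 / 4 : ℝ)) by ring, hee, one_mul]
      _ ≤ _ := by gcongr
  have h2' : 4 * Real.log n ≤ Real.exp (-81) * Real.sqrt n := by
    rw [Real.rpow_zero, mul_one] at h2
    calc 4 * Real.log n = Real.exp (-81) * (4 * Real.exp 81 * Real.log n) := by
          rw [show Real.exp (-81) * (4 * Real.exp 81 * Real.log n) =
            (Real.exp (-81) * Real.exp 81) * (4 * Real.log n) by ring, hee, one_mul]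
      _ ≤ _ := by gcongr
  have hM2 : Real.exp (-81) * Real.sqrt n / 2 ≤ m0 n := by linarith
  have hMlog : Real.log n < m0 n := by linarith
  have hR1 : (1 : ℝ) ≤ R := by exact_mod_cast hR
  have hR2 : (1 : ℝ) ≤ ((R : ℝ) + 1) ^ 2 := by nlinarith
  have hRn : (R : ℝ) ≤ n := by
    have : (n : ℝ) ^ (1 / 4 : ℝ) ≤ (n : ℝ) ^ (1 : ℝ) :=
      Real.rpow_le_rpow_of_exponent_le hn1 (by norm_num)
    rw [Real.rpow_one] at this
    nlinarith
  have he81 : (1 : ℝ) ≤ Real.exp 81 := Real.one_le_exp (by norm_num)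
  have hq12 : (12 : ℝ) * ((R : ℝ) + 1) ^ 2 ≤ q := by
    refine le_trans ?_ hqC
    calc (12 : ℝ) * ((R : ℝ) + 1) ^ 2 = 12 * 1 * ((R : ℝ) + 1) ^ 2 * 1 := by ring
      _ ≤ 192 * Real.exp 81 * ((R : ℝ) + 1) ^ 2 * Real.log n := by gcongr; norm_num
  have hqN : 12 * (R + 1) ^ 2 ≤ q := by exact_mod_cast hq12
  have hq1 : 1 ≤ q := by
    have : (1 : ℝ) ≤ q := by nlinarith
    exact_mod_cast this
  have hcore := ub (RR n) (HH (m0 n) n) (HH_inv (m0 n) n) q R x b (384 * (m : ℝ) ^ 2 / q)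
    (64 / (q : ℝ)) (48 * R / (q : ℝ)) (by positivity) (by positivity) (by positivity)
    (R * Real.exp (-((m0 n : ℝ) * q / (12 * ((R : ℝ) + 1) ^ 2))) *
        (Fintype.card (Alt n) : ℝ) ^ (R * q)) (by positivity) ?_
  · refine hcore.trans ?_
    have hc : (Nat.card (ConjClasses (Alt n)) : ℝ) ≤
        ((2 * (n + 1) ^ (2 * Nat.sqrt n + 2) : ℕ) : ℝ) := by exact_mod_cast CONJ n
    calc (Nat.card (ConjClasses (Alt n)) : ℝ) *
        (R * Real.exp (-((m0 n : ℝ) * q / (12 * ((R : ℝ) + 1) ^ 2))) *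
        (Fintype.card (Alt n) : ℝ) ^ (R * q))
        ≤ ((2 * (n + 1) ^ (2 * Nat.sqrt n + 2) : ℕ) : ℝ) *
        (R * Real.exp (-((m0 n : ℝ) * q / (12 * ((R : ℝ) + 1) ^ 2))) *
        (Fintype.card (Alt n) : ℝ) ^ (R * q)) := by gcongr
      _ = (((2 * (n + 1) ^ (2 * Nat.sqrt n + 2) : ℕ) : ℝ) *
        (R * Real.exp (-((m0 n : ℝ) * q / (12 * ((R : ℝ) + 1) ^ 2))))) *
        (Fintype.card (Alt n) : ℝ) ^ (R * q) := by ring
      _ ≤ 1 / (n : ℝ) * (Fintype.card (Alt n) : ℝ) ^ (R * q) := by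
          gcongr
          exact num n R q (m0 n) hn9 hRn hM2 hqC
  · intro W hW hWM
    refine AMPQ2 (RR n) W hW q m R hR hqN x b (32 * (m0 n / 8)) (Real.exp (-(3 * (m0 n : ℝ))))
      (hRT q m x b hq1 hgood W hW hWM) (m0 n) ?_ (pow87 (m0 n)) ?_
    · calc 12 * ((R : ℝ) + 1) ^ 2 ≤ 12 * (n : ℝ) ^ (1 / 4 : ℝ) := by gcongr
        _ ≤ m0 n := by linarith
    · have hf : (Module.finrank ℂ W : ℝ) ≤ (n : ℝ) ^ n := by exact_mod_cast finrank_le n W
      calc (Module.finrank ℂ W : ℝ) ≤ (n : ℝ) ^ n := hf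
        _ = Real.exp (n * Real.log n) := by
            rw [Real.exp_nat_mul, Real.exp_log hn0]
        _ < Real.exp (n * m0 n) := by
            apply Real.exp_lt_exp.mpr
            gcongr
        _ ≤ Real.exp ((m0 n : ℝ) * (q / (12 * ((R : ℝ) + 1) ^ 2)) ^ R) := by
            apply Real.exp_le_exp.mpr
            rw [mul_comm]
            gcongr

end RC852
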